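import Pool.Agent.Helper23.NX3.Cells
import Pool.Agent.Helper40.NX3.EnLe

/-!
# Project NX2, C5: the good set
-/

set_option autoImplicit false

open Finset
open scoped BigOperators

namespace Pool.Agent.Helper57.NX3

noncomputable section

/-- the good set -/
def GG (z : ℕ) (A : Finset ℕ) (M β : ℕ) (δ : ℝ) : Finset ℕ :=
  (range (2 ^ z)).filter fun x => x.Coprime M ∧
    δ / 4 ≤ (M.totient : ℝ) / M * cd (FA z A) M β x ∧ δ / 4 ≤ cd (FA z A) 1 β x

private theorem gs_blocks (f : ℕ → ℝ) (L n : ℕ) :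
    ∑ x ∈ range (L * n), f x = ∑ j ∈ range n, ∑ x ∈ Ico (L * j) (L * (j + 1)), f x := by
  induction n with
  | zero => simp
  | succ n ih =>
    rw [sum_range_succ, ← ih, range_eq_Ico, range_eq_Ico]
    rw [Finset.sum_Ico_consecutive _ (Nat.zero_le _) (Nat.mul_le_mul_left L (Nat.le_succ n))]

/-- number of integers prime to `M` -/
theorem card_coprime_le (M : ℕ) (hM : 1 ≤ M) (Z : ℕ) :
    |(((range Z).filter (fun x => x.Coprime M)).card : ℝ) - (M.totient : ℝ) / M * Z| ≤ M := by
  have hM0 : (0 : ℝ) < M := by exact_mod_cast hM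
  set q := Z / M with hq
  set r := Z % M with hr
  have hZ : Z = M * q + r := (Nat.div_add_mod Z M).symm
  have hrM : r < M := Nat.mod_lt _ hM
  have e1 : (((range Z).filter (fun x => x.Coprime M)).card : ℝ) =
      ∑ x ∈ range Z, (if x.Coprime M then (1 : ℝ) else 0) := by
    rw [Finset.sum_boole]
  have e2 : ∑ x ∈ range (M * q), (if x.Coprime M then (1 : ℝ) else 0) = q * M.totient := by
    rw [gs_blocks]
    have : ∀ j ∈ range q, ∑ x ∈ Ico (M * j) (M * (j + 1)), (if x.Coprime M then (1 : ℝ) else 0)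
        = M.totient := by
      intro j _
      rw [Finset.sum_boole]
      have := Nat.filter_coprime_Ico_eq_totient M (M * j)
      have h2 : M * (j + 1) = M * j + M := by ring
      rw [h2]
      rw [← this]
      congr 2
      apply Finset.filter_congr
      intro x _
      exact Nat.coprime_comm
    rw [Finset.sum_congr rfl this]
    simp
  have e3 : ∑ x ∈ range Z, (if x.Coprime M then (1 : ℝ) else 0) =
      q * M.totient + ∑ x ∈ Ico (M * q) (M * q + r), (if x.Coprime M then (1 : ℝ) else 0) := by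
    rw [← e2, hZ, range_eq_Ico, range_eq_Ico,
      Finset.sum_Ico_consecutive _ (Nat.zero_le _) (Nat.le_add_right _ _)]
  have h0 : 0 ≤ ∑ x ∈ Ico (M * q) (M * q + r), (if x.Coprime M then (1 : ℝ) else 0) :=
    Finset.sum_nonneg (fun x _ => by split_ifs <;> norm_num)
  have h1 : ∑ x ∈ Ico (M * q) (M * q + r), (if x.Coprime M then (1 : ℝ) else 0) ≤ r := by
    calc _ ≤ ∑ x ∈ Ico (M * q) (M * q + r), (1 : ℝ) :=
          Finset.sum_le_sum (fun x _ => by split_ifs <;> norm_num)
      _ = r := by simp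
  have hφ : (M.totient : ℝ) / M ≤ 1 := by
    rw [div_le_one hM0]
    exact_mod_cast Nat.totient_le M
  have hφ0 : 0 ≤ (M.totient : ℝ) / M := by positivity
  have hZr : (Z : ℝ) = M * q + r := by exact_mod_cast hZ
  have hrr : (r : ℝ) ≤ M := by exact_mod_cast hrM.le
  have hr0 : (0 : ℝ) ≤ r := Nat.cast_nonneg r
  have e4 : (M.totient : ℝ) / M * Z = q * M.totient + (M.totient : ℝ) / M * r := by
    rw [hZr]; field_simp
  have h5 : (M.totient : ℝ) / M * r ≤ r := by nlinarith
  have h6 : 0 ≤ (M.totient : ℝ) / M * r := by positivity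
  rw [e1, e3, e4, abs_le]
  constructor <;> linarith

private theorem gs_ev (M : ℕ) (hM : 1 ≤ M) (δ θ : ℝ) (hδ : 0 < δ) (hθ : 0 < θ) :
    ∃ z0 : ℕ, ∀ z : ℕ, z0 ≤ z → 100 * (M : ℝ) ≤ ((2 : ℝ) ^ z) ^ θ ∧
      (M : ℝ) * Real.log ((2 : ℝ) ^ z) ≤ δ / 100 * 2 ^ z ∧ 25 * (M : ℝ) ^ 2 ≤ 2 ^ z := by
  have hM0 : (0 : ℝ) < M := by exact_mod_cast hM
  have T : Filter.Tendsto (fun z : ℕ => (2 : ℝ) ^ z) Filter.atTop Filter.atTop :=
    tendsto_pow_atTop_atTop_of_one_lt (by norm_num)
  have h1 := ((tendsto_rpow_atTop hθ).comp T).eventually_ge_atTop (100 * (M : ℝ))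
  have h2 := (Real.isLittleO_log_id_atTop.comp_tendsto T).def
    (show 0 < δ / (100 * M) by positivity)
  have h3 := T.eventually_ge_atTop (25 * (M : ℝ) ^ 2)
  obtain ⟨z0, h⟩ := Filter.eventually_atTop.1 ((h1.and h2).and h3)
  refine ⟨z0, fun z hz => ?_⟩
  obtain ⟨⟨a1, a2⟩, a3⟩ := h z hz
  refine ⟨a1, ?_, a3⟩
  simp only [Function.comp, id, Real.norm_eq_abs] at a2
  have h2z : (0 : ℝ) < 2 ^ z := by positivity
  rw [abs_of_pos h2z] at a2
  calc (M : ℝ) * Real.log ((2 : ℝ) ^ z) ≤ M * |Real.log ((2 : ℝ) ^ z)| :=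
        mul_le_mul_of_nonneg_left (le_abs_self _) hM0.le
    _ ≤ M * (δ / (100 * M) * 2 ^ z) := mul_le_mul_of_nonneg_left a2 hM0.le
    _ = δ / 100 * 2 ^ z := by field_simp

/-- the terms with a small block average -/
private theorem gs_small {f : ℕ → ℝ} (hf : ∀ x, 0 ≤ f x) {M β z : ℕ} (hM : 1 ≤ M) (hβ : β ≤ z)
    {η : ℝ} (hη : 0 ≤ η) :
    ∑ x ∈ (range (2 ^ z)).filter (fun x => x.Coprime M ∧ cd f 1 β x < η), cd f M β x ≤
      (1 + (M : ℝ) / 2 ^ β) * η * 2 ^ z := by
  have hz : (2 : ℕ) ^ z = 2 ^ β * 2 ^ (z - β) := by rw [← pow_add]; congr 1; omega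
  have h2 : (0 : ℝ) < 2 ^ β := by positivity
  rw [Finset.sum_filter, hz, gs_blocks]
  have key : ∀ j ∈ range (2 ^ (z - β)), ∑ x ∈ Ico (2 ^ β * j) (2 ^ β * (j + 1)),
      (if x.Coprime M ∧ cd f 1 β x < η then cd f M β x else 0) ≤
      (1 + (M : ℝ) / 2 ^ β) * (2 ^ β * η) := by
    intro j _
    have hdiv : (2 ^ β * j) / 2 ^ β = j := Nat.mul_div_cancel_left j (by positivity)
    have hblo : blo β (2 ^ β * j) = Ico (2 ^ β * j) (2 ^ β * (j + 1)) := by
      unfold blo; rw [hdiv]
    have hx : ∀ x ∈ Ico (2 ^ β * j) (2 ^ β * (j + 1)), cd f 1 β x = cd f 1 β (2 ^ β * j) := by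
      intro x hx
      rw [← hblo, mem_blo] at hx
      exact cd_congr f hx (Nat.modEq_one)
    have hM1 : (0 : ℝ) ≤ 1 + (M : ℝ) / 2 ^ β := by positivity
    by_cases hc : cd f 1 β (2 ^ β * j) < η
    · calc ∑ x ∈ Ico (2 ^ β * j) (2 ^ β * (j + 1)),
            (if x.Coprime M ∧ cd f 1 β x < η then cd f M β x else 0)
          ≤ ∑ x ∈ Ico (2 ^ β * j) (2 ^ β * (j + 1)), (if x.Coprime M then cd f M β x else 0) := by
            apply Finset.sum_le_sum
            intro x _
            have h0 := cd_nonneg hf M β x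
            split_ifs with h1 h2 h2
            · exact le_rfl
            · exact absurd h1.1 h2
            · exact h0
            · exact le_rfl
        _ = ∑ y ∈ (blo β (2 ^ β * j)).filter (fun y => y.Coprime M), cd f M β y := by
            rw [hblo, Finset.sum_filter]
        _ ≤ (1 + (M : ℝ) / 2 ^ β) * ∑ y ∈ blo β (2 ^ β * j), f y := sum_cd_block hf hM _
        _ ≤ (1 + (M : ℝ) / 2 ^ β) * (2 ^ β * η) := by
            apply mul_le_mul_of_nonneg_left _ hM1
            rw [cd_one, div_lt_iff₀ h2] at hc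
            linarith
    · rw [Finset.sum_eq_zero]
      · positivity
      · intro x hxx
        rw [if_neg]
        rintro ⟨_, h⟩
        rw [hx x hxx] at h
        exact hc h
  calc _ ≤ ∑ j ∈ range (2 ^ (z - β)), (1 + (M : ℝ) / 2 ^ β) * (2 ^ β * η) :=
        Finset.sum_le_sum key
    _ = (1 + (M : ℝ) / 2 ^ β) * η * (2 ^ β * 2 ^ (z - β)) := by
        rw [Finset.sum_const, card_range, nsmul_eq_mul]; push_cast; ring
    _ = (1 + (M : ℝ) / 2 ^ β) * η * 2 ^ z := by
        rw [← pow_add]; congr 2; omega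

theorem good_set : ∃ ω : ℝ, 0 < ω ∧ ∀ δ : ℝ, 0 < δ → δ ≤ 1 → ∀ M : ℕ, 1 ≤ M → ∀ θ : ℝ, 0 < θ →
    ∃ z0 : ℕ, ∀ z : ℕ, z0 ≤ z → ∀ A : Finset ℕ, PS z A →
    δ * ((2 : ℝ) ^ z / Real.log ((2 : ℝ) ^ z)) ≤ A.card →
    ∀ β : ℕ, β ≤ z → ((2 : ℝ) ^ z) ^ θ ≤ 2 ^ β →
    ω * δ ^ 2 * ((M.totient : ℝ) / M) * 2 ^ z ≤ (GG z A M β δ).card := by
  obtain ⟨C1, hC1, hen⟩ := en_le
  refine ⟨1 / (9 * C1), by positivity, ?_⟩
  intro δ hδ hδ1 M hM θ hθ
  obtain ⟨z1, hz1⟩ := hen M hM θ hθ
  obtain ⟨z2, hz2⟩ := gs_ev M hM δ θ hδ hθ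
  refine ⟨max (max z1 z2) 1, ?_⟩
  intro z hz A hA hcard β hβ hθβ
  have hz1' : z1 ≤ z := le_trans (le_max_left _ _) (le_trans (le_max_left _ _) hz)
  have hz2' : z2 ≤ z := le_trans (le_max_right _ _) (le_trans (le_max_left _ _) hz)
  have hz3' : 1 ≤ z := le_trans (le_max_right _ _) hz
  have hE := hz1 z hz1' A hA β hβ hθβ
  obtain ⟨a1, a2, a3⟩ := hz2 z hz2'
  have hM0 : (0 : ℝ) < M := by exact_mod_cast hM
  have hM1 : (1 : ℝ) ≤ M := by exact_mod_cast hM
  set Z : ℝ := (2 : ℝ) ^ z with hZ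
  have hZ0 : 0 < Z := by positivity
  set lz := Real.log Z with hlz
  have hlz0 : 0 < lz := by
    rw [hlz, hZ]
    apply Real.log_pos
    exact one_lt_pow₀ (by norm_num) (by omega)
  set kap : ℝ := (M.totient : ℝ) / M with hkap
  have hφ1 : (1 : ℝ) ≤ M.totient := by
    exact_mod_cast Nat.totient_pos.2 hM
  have hkap0 : 0 < kap := by positivity
  have hkapM : 1 / (M : ℝ) ≤ kap := by
    rw [hkap]; gcongr
  have hkap1 : kap ≤ 1 := by
    rw [hkap, div_le_one hM0]; exact_mod_cast Nat.totient_le M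
  set F := FA z A with hF
  have hF0 : ∀ x, 0 ≤ F x := FA_nonneg z A
  have h2β : (0 : ℝ) < 2 ^ β := by positivity
  have hε : (M : ℝ) / 2 ^ β ≤ 1 / 100 := by
    rw [div_le_div_iff₀ h2β (by norm_num)]
    linarith
  have hε0 : 0 ≤ (M : ℝ) / 2 ^ β := by positivity
  -- the sum of `F` over the classes prime to `M`
  have hsumF : δ * Z ≤ ∑ x ∈ range (2 ^ z), F x := by
    rw [sum_FA hA]
    have := mul_le_mul_of_nonneg_left hcard hlz0.le
    calc δ * Z = lz * (δ * (Z / lz)) := by field_simp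
      _ ≤ lz * A.card := this
  have hsplit : ∑ x ∈ range (2 ^ z), F x =
      ∑ x ∈ (range (2 ^ z)).filter (fun x => x.Coprime M), F x +
      ∑ x ∈ (range (2 ^ z)).filter (fun x => ¬ x.Coprime M), F x :=
    (Finset.sum_filter_add_sum_filter_not _ _ _).symm
  have hnon : ∑ x ∈ (range (2 ^ z)).filter (fun x => ¬ x.Coprime M), F x ≤ M * lz := by
    calc ∑ x ∈ (range (2 ^ z)).filter (fun x => ¬ x.Coprime M), F x
        = ∑ x ∈ ((range (2 ^ z)).filter (fun x => ¬ x.Coprime M)).filter (fun x => x ∈ A), lz := by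
          rw [Finset.sum_filter _ (fun _ => lz)]
          apply Finset.sum_congr rfl
          intro x _
          rfl
      _ = (((range (2 ^ z)).filter (fun x => ¬ x.Coprime M)).filter (fun x => x ∈ A)).card * lz := by
          rw [Finset.sum_const, nsmul_eq_mul]
      _ ≤ M * lz := by
          apply mul_le_mul_of_nonneg_right _ hlz0.le
          have hsub : ((range (2 ^ z)).filter (fun x => ¬ x.Coprime M)).filter (fun x => x ∈ A) ⊆
              Finset.Icc 1 M := by
            intro x hx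
            simp only [Finset.mem_filter, Finset.mem_range] at hx
            obtain ⟨⟨_, hc⟩, hxA⟩ := hx
            have hp := (hA x hxA).1
            rw [hp.coprime_iff_not_dvd, not_not] at hc
            exact Finset.mem_Icc.2 ⟨hp.one_lt.le, Nat.le_of_dvd hM hc⟩
          have := Finset.card_le_card hsub
          rw [Nat.card_Icc] at this
          exact_mod_cast this
  have hco : δ * Z * (99 / 100) ≤ ∑ x ∈ (range (2 ^ z)).filter (fun x => x.Coprime M), F x := by
    nlinarith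
  have hcd : (99 / 100) * (δ * Z * (99 / 100)) ≤
      ∑ x ∈ (range (2 ^ z)).filter (fun x => x.Coprime M), cd F M β x := by
    refine le_trans ?_ (sum_cd_coprime hF0 hM hβ)
    apply mul_le_mul _ hco (by positivity) (by linarith)
    linarith
  -- the terms with small block average
  have hsm := gs_small hF0 hM hβ (show (0 : ℝ) ≤ δ / 4 by positivity)
  have hsm' : ∑ x ∈ (range (2 ^ z)).filter (fun x => x.Coprime M ∧ cd F 1 β x < δ / 4),
      cd F M β x ≤ (101 / 100) * (δ / 4) * Z := by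
    refine le_trans hsm ?_
    apply mul_le_mul_of_nonneg_right _ hZ0.le
    apply mul_le_mul_of_nonneg_right _ (by positivity)
    linarith
  -- the terms with small `ht`
  have hcc := card_coprime_le M hM (2 ^ z)
  have hcc' : ((((range (2 ^ z)).filter (fun x => x.Coprime M)).card : ℕ) : ℝ) ≤
      kap * Z + M := by
    have := (abs_le.1 hcc).2
    push_cast at this
    linarith
  have hst : ∑ x ∈ (range (2 ^ z)).filter (fun x => x.Coprime M ∧ kap * cd F M β x < δ / 4),
      kap * cd F M β x ≤ (δ / 4) * (kap * Z + M) := by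
    calc _ ≤ ∑ x ∈ (range (2 ^ z)).filter (fun x => x.Coprime M ∧ kap * cd F M β x < δ / 4),
          δ / 4 := by
          apply Finset.sum_le_sum
          intro x hx
          exact (Finset.mem_filter.1 hx).2.2.le
      _ = ((range (2 ^ z)).filter (fun x => x.Coprime M ∧ kap * cd F M β x < δ / 4)).card *
          (δ / 4) := by rw [Finset.sum_const, nsmul_eq_mul]
      _ ≤ (((range (2 ^ z)).filter (fun x => x.Coprime M)).card : ℝ) * (δ / 4) := by
          apply mul_le_mul_of_nonneg_right _ (by positivity)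
          have : ((range (2 ^ z)).filter (fun x => x.Coprime M ∧ kap * cd F M β x < δ / 4)) ⊆
              (range (2 ^ z)).filter (fun x => x.Coprime M) := by
            intro x hx
            simp only [Finset.mem_filter] at hx ⊢
            exact ⟨hx.1, hx.2.1⟩
          exact_mod_cast Finset.card_le_card this
      _ ≤ (δ / 4) * (kap * Z + M) := by
          rw [mul_comm]
          exact mul_le_mul_of_nonneg_left hcc' (by positivity)
  -- decomposition
  have hdec : ∑ x ∈ (range (2 ^ z)).filter (fun x => x.Coprime M), kap * cd F M β x ≤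
      ∑ x ∈ GG z A M β δ, kap * cd F M β x +
      ∑ x ∈ (range (2 ^ z)).filter (fun x => x.Coprime M ∧ cd F 1 β x < δ / 4),
        kap * cd F M β x +
      ∑ x ∈ (range (2 ^ z)).filter (fun x => x.Coprime M ∧ kap * cd F M β x < δ / 4),
        kap * cd F M β x := by
    unfold GG
    rw [Finset.sum_filter, Finset.sum_filter, Finset.sum_filter, Finset.sum_filter,
      ← Finset.sum_add_distrib, ← Finset.sum_add_distrib]
    apply Finset.sum_le_sum
    intro x _
    have h0 : 0 ≤ kap * cd F M β x := mul_nonneg hkap0.le (cd_nonneg hF0 M β x)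
    have g1 : 0 ≤ if x.Coprime M ∧ δ / 4 ≤ (M.totient : ℝ) / M * cd (FA z A) M β x ∧
        δ / 4 ≤ cd (FA z A) 1 β x then kap * cd F M β x else 0 := by
      by_cases h : x.Coprime M ∧ δ / 4 ≤ (M.totient : ℝ) / M * cd (FA z A) M β x ∧
        δ / 4 ≤ cd (FA z A) 1 β x
      · rw [if_pos h]; exact h0
      · rw [if_neg h]
    have g2 : 0 ≤ if x.Coprime M ∧ cd F 1 β x < δ / 4 then kap * cd F M β x else 0 := by
      by_cases h : x.Coprime M ∧ cd F 1 β x < δ / 4
      · rw [if_pos h]; exact h0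
      · rw [if_neg h]
    have g3 : 0 ≤ if x.Coprime M ∧ kap * cd F M β x < δ / 4 then kap * cd F M β x else 0 := by
      by_cases h : x.Coprime M ∧ kap * cd F M β x < δ / 4
      · rw [if_pos h]; exact h0
      · rw [if_neg h]
    by_cases hc : x.Coprime M
    · rw [if_pos hc]
      by_cases hu : cd F 1 β x < δ / 4
      · rw [if_pos (show x.Coprime M ∧ cd F 1 β x < δ / 4 from ⟨hc, hu⟩)]
        linarith
      · by_cases hv : kap * cd F M β x < δ / 4
        · rw [if_pos (show x.Coprime M ∧ kap * cd F M β x < δ / 4 from ⟨hc, hv⟩)]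
          linarith
        · rw [if_pos (show x.Coprime M ∧ δ / 4 ≤ (M.totient : ℝ) / M * cd (FA z A) M β x ∧
            δ / 4 ≤ cd (FA z A) 1 β x from ⟨hc, not_lt.1 hv, not_lt.1 hu⟩)]
          linarith
    · rw [if_neg hc]
      linarith
  have hbig : kap * Z * δ / 3 ≤ ∑ x ∈ GG z A M β δ, kap * cd F M β x := by
    have e1 := mul_le_mul_of_nonneg_left hcd hkap0.le
    have e2 := mul_le_mul_of_nonneg_left hsm' hkap0.le
    rw [Finset.mul_sum] at e1 e2
    have hMM : (M : ℝ) * (δ / 4) ≤ δ / 100 * (kap * Z) := by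
      have h1 : (M : ℝ) * 25 ≤ kap * Z := by
        calc (M : ℝ) * 25 = 1 / M * (25 * (M : ℝ) ^ 2) := by field_simp
          _ ≤ kap * Z := mul_le_mul hkapM a3 (by positivity) hkap0.le
      nlinarith
    have hkZ : 0 < kap * Z * δ := by positivity
    have e3 : kap * ((99 / 100) * (δ * Z * (99 / 100))) = (9801 / 10000) * (kap * Z * δ) := by
      ring
    have e4 : kap * ((101 / 100) * (δ / 4) * Z) = (101 / 400) * (kap * Z * δ) := by ring
    have e5 : (δ / 4) * (kap * Z + M) = (1 / 4) * (kap * Z * δ) + M * (δ / 4) := by ring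
    have e6 : δ / 100 * (kap * Z) = (1 / 100) * (kap * Z * δ) := by ring
    have e7 : kap * Z * δ / 3 = (1 / 3) * (kap * Z * δ) := by ring
    rw [e3] at e1
    rw [e4] at e2
    rw [e5] at hst
    rw [e6] at hMM
    rw [e7]
    linarith
  -- the second moment
  have hsq : ∑ x ∈ GG z A M β δ, (kap * cd F M β x) ^ 2 ≤ C1 * (kap * Z) := by
    calc ∑ x ∈ GG z A M β δ, (kap * cd F M β x) ^ 2
        ≤ ∑ x ∈ range (2 ^ z), (kap * cd F M β x) ^ 2 := by
          apply Finset.sum_le_sum_of_subset_of_nonneg (Finset.filter_subset _ _)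
          intro x _ _
          positivity
      _ = kap * Z * En z A M β := by
          unfold En
          rw [← hkap, ← hZ, ← hF]
          simp_rw [mul_pow]
          rw [← Finset.mul_sum]
          field_simp
      _ ≤ kap * Z * C1 := mul_le_mul_of_nonneg_left hE (by positivity)
      _ = C1 * (kap * Z) := by ring
  have hCS : (∑ x ∈ GG z A M β δ, kap * cd F M β x) ^ 2 ≤
      (GG z A M β δ).card * ∑ x ∈ GG z A M β δ, (kap * cd F M β x) ^ 2 :=
    sq_sum_le_card_mul_sum_sq
  have hkZ0 : 0 < kap * Z := by positivity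
  have h9 : (kap * Z * δ / 3) ^ 2 ≤ (GG z A M β δ).card * (C1 * (kap * Z)) := by
    calc (kap * Z * δ / 3) ^ 2 ≤ (∑ x ∈ GG z A M β δ, kap * cd F M β x) ^ 2 :=
          pow_le_pow_left₀ (by positivity) hbig 2
      _ ≤ _ := hCS
      _ ≤ _ := mul_le_mul_of_nonneg_left hsq (Nat.cast_nonneg _)
  have hC0 : 0 < C1 := by linarith
  have h10 : 1 / (9 * C1) * δ ^ 2 * kap * Z * (C1 * (kap * Z)) ≤
      (GG z A M β δ).card * (C1 * (kap * Z)) := by
    calc 1 / (9 * C1) * δ ^ 2 * kap * Z * (C1 * (kap * Z)) = (kap * Z * δ / 3) ^ 2 := by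
          field_simp; ring
      _ ≤ _ := h9
  exact le_of_mul_le_mul_right h10 (by positivity)

end

end Pool.Agent.Helper57.NX3
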